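import Pool.Agent.V11188.VB.E

/-!
# Q1 of MP_0ffb5f_gt: yes

There is a non-increasing `g : (0,1] → [0,∞)`, independent of the dimension, such that
`β(B_2^n, V) ≤ g(γ_n(V))` for every convex body `V` with the origin in its interior and with
Gaussian barycentre at the origin.
-/

set_option autoImplicit false

namespace Pool.Agent.Results.MP_0ffb5f_gt.GaussianCentred

open MeasureTheory ProbabilityTheory Set Pool.Agent.V11188.VB

theorem result :
    ∃ g : ℝ → ℝ, AntitoneOn g (Ioc 0 1) ∧ (∀ p ∈ Ioc (0:ℝ) 1, 0 ≤ g p) ∧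
      ∀ n : ℕ, 1 ≤ n → ∀ V : Set (EuclideanSpace ℝ (Fin n)),
        IsCompact V → Convex ℝ V → 0 ∈ interior V →
        ∫ x in V, x ∂(stdGaussian (EuclideanSpace ℝ (Fin n))) = 0 →
          IsLeast {C : ℝ | 0 < C ∧ Balances n V C} (beta n V) ∧
          beta n V ≤ g (stdGaussian (EuclideanSpace ℝ (Fin n)) V).toReal := by
  refine ⟨ff, ff_anti.mono (fun p hp => hp.1), fun p _ => (ff_pos p).le, ?_⟩
  intro n hn V hV hc h0 hbar
  exact ⟨beta_isLeast hn hV h0,
    beta_le (ff_pos _) (balances_of_seq (centred_bal hV hc h0 hbar))⟩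

end Pool.Agent.Results.MP_0ffb5f_gt.GaussianCentred
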